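import Pool.Agent.helper15.LC.Spec

/-!
# Project lc (MP_7c3fb3_pr), row B1C: concentration of the block magnetisation in the plus state
-/

open Finset Filter Topology CU

namespace CO

private lemma B1C_abs {Ω : Type} (S : Finset Ω) (w X : Ω → ℝ) (a κ m : ℝ) (ha : 0 < a) (hκ : 0 < κ)
    (hm0 : 0 ≤ m) (hm1 : m ≤ 1) (hw : ∀ σ ∈ S, 0 ≤ w σ) (hX : ∀ σ ∈ S, |X σ| ≤ 1)
    (h1 : m * ∑ σ ∈ S, w σ ≤ ∑ σ ∈ S, w σ * X σ)
    (h2 : ∑ σ ∈ S, w σ * X σ ^ 2 ≤ (m ^ 2 + κ ^ 2 * Real.exp (-2 * a) / 4) * ∑ σ ∈ S, w σ) :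
    ∑ σ ∈ S, w σ * Real.exp (-(a * X σ)) ≤
      2 * Real.exp (-a * (2 * m - κ)) * ∑ σ ∈ S, w σ * Real.exp (a * X σ) := by
  set Z : ℝ := ∑ σ ∈ S, w σ with hZ
  have hZ0 : 0 ≤ Z := sum_nonneg hw
  have h3 : ∑ σ ∈ S, w σ * (X σ - m) ^ 2 ≤ κ ^ 2 * Real.exp (-2 * a) / 4 * Z := by
    have e1 : ∑ σ ∈ S, w σ * (X σ - m) ^ 2 =
        ∑ σ ∈ S, w σ * X σ ^ 2 - 2 * m * ∑ σ ∈ S, w σ * X σ + m ^ 2 * Z := by
      rw [hZ, mul_sum, mul_sum, ← sum_sub_distrib, ← sum_add_distrib]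
      refine sum_congr rfl fun σ _ => ?_
      ring
    have e2 := mul_le_mul_of_nonneg_left h1 (show 0 ≤ 2 * m by linarith)
    rw [e1]
    nlinarith
  have h4 : ∑ σ ∈ S, w σ * Real.exp (-(a * X σ)) ≤
      Real.exp (-a * (m - κ / 2)) * Z + Real.exp a * (4 / κ ^ 2) * ∑ σ ∈ S, w σ * (X σ - m) ^ 2 := by
    rw [hZ, mul_sum, mul_sum, ← sum_add_distrib]
    refine sum_le_sum fun σ hσ => ?_
    have e1 : Real.exp (-(a * X σ)) ≤ Real.exp (-a * (m - κ / 2)) + Real.exp a * (4 / κ ^ 2) * (X σ - m) ^ 2 := by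
      by_cases hc : m - κ / 2 ≤ X σ
      · have e2 : Real.exp (-(a * X σ)) ≤ Real.exp (-a * (m - κ / 2)) := by
          apply Real.exp_le_exp.2
          nlinarith
        have e3 : 0 ≤ Real.exp a * (4 / κ ^ 2) * (X σ - m) ^ 2 := by positivity
        linarith
      · push Not at hc
        have e2 : Real.exp (-(a * X σ)) ≤ Real.exp a := by
          apply Real.exp_le_exp.2
          have := (abs_le.1 (hX σ hσ)).1
          nlinarith
        have e3 : 1 ≤ (4 / κ ^ 2) * (X σ - m) ^ 2 := by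
          rw [div_mul_eq_mul_div, one_le_div (by positivity)]
          nlinarith
        have e4 : Real.exp a * 1 ≤ Real.exp a * ((4 / κ ^ 2) * (X σ - m) ^ 2) :=
          mul_le_mul_of_nonneg_left e3 (Real.exp_pos a).le
        have e5 := Real.exp_pos (-a * (m - κ / 2))
        linarith
    have e2 := mul_le_mul_of_nonneg_left e1 (hw σ hσ)
    linarith
  have h5 : Real.exp a * (4 / κ ^ 2) * ∑ σ ∈ S, w σ * (X σ - m) ^ 2 ≤ Real.exp (-a * (m - κ / 2)) * Z := by
    have e1 : Real.exp a * (4 / κ ^ 2) * ∑ σ ∈ S, w σ * (X σ - m) ^ 2 ≤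
        Real.exp a * (4 / κ ^ 2) * (κ ^ 2 * Real.exp (-2 * a) / 4 * Z) :=
      mul_le_mul_of_nonneg_left h3 (by positivity)
    have e2 : Real.exp a * (4 / κ ^ 2) * (κ ^ 2 * Real.exp (-2 * a) / 4 * Z) = Real.exp (-a) * Z := by
      have e3 : Real.exp (-a) = Real.exp a * Real.exp (-2 * a) := by
        rw [← Real.exp_add]
        congr 1
        ring
      rw [e3]
      field_simp
    have e4 : Real.exp (-a) ≤ Real.exp (-a * (m - κ / 2)) := by
      apply Real.exp_le_exp.2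
      nlinarith
    rw [e2] at e1
    exact e1.trans (mul_le_mul_of_nonneg_right e4 hZ0)
  have h6 : Real.exp (a * m) * Z ≤ ∑ σ ∈ S, w σ * Real.exp (a * X σ) := by
    have e1 : Real.exp (a * m) * ((1 - a * m) * Z + a * ∑ σ ∈ S, w σ * X σ) ≤
        ∑ σ ∈ S, w σ * Real.exp (a * X σ) := by
      rw [hZ, mul_sum, mul_sum, ← sum_add_distrib, mul_sum]
      refine sum_le_sum fun σ hσ => ?_
      have e2 : Real.exp (a * m) * (1 + (a * X σ - a * m)) ≤ Real.exp (a * X σ) := by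
        have e3 : Real.exp (a * X σ) = Real.exp (a * m) * Real.exp (a * X σ - a * m) := by
          rw [← Real.exp_add]
          congr 1
          ring
        rw [e3]
        apply mul_le_mul_of_nonneg_left _ (Real.exp_pos _).le
        have := Real.add_one_le_exp (a * X σ - a * m)
        linarith
      have e3 := mul_le_mul_of_nonneg_left e2 (hw σ hσ)
      linarith
    refine le_trans ?_ e1
    apply mul_le_mul_of_nonneg_left _ (Real.exp_pos _).le
    nlinarith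
  calc ∑ σ ∈ S, w σ * Real.exp (-(a * X σ)) ≤ 2 * (Real.exp (-a * (m - κ / 2)) * Z) := by linarith
    _ ≤ 2 * (Real.exp (-a * (2 * m - κ)) * (Real.exp (a * m) * Z)) := by
        have e1 : Real.exp (-a * (m - κ / 2)) ≤ Real.exp (-a * (2 * m - κ)) * Real.exp (a * m) := by
          rw [← Real.exp_add]
          apply Real.exp_le_exp.2
          nlinarith
        have e2 := mul_le_mul_of_nonneg_right e1 hZ0
        linarith
    _ ≤ 2 * (Real.exp (-a * (2 * m - κ)) * ∑ σ ∈ S, w σ * Real.exp (a * X σ)) := by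
        have e1 := mul_le_mul_of_nonneg_left h6 (Real.exp_pos (-a * (2 * m - κ))).le
        linarith
    _ = _ := by ring

private lemma B1C_near {d n : ℕ} {r s t : ℕ} (hrst : r + s ≤ t) {x y z : Site d n} (h1 : Near r x y)
    (h2 : Near s y z) : Near t x z := by
  intro k
  have e1 : z k - x k = (z k - y k) + (y k - x k) := by ring
  rw [e1]
  have e2 := ZMod.natAbs_valMinAbs_add_le (z k - y k) (y k - x k)
  have e3 := h1 k
  have e4 := h2 k
  have e5 := Int.natAbs_add_le (z k - y k).valMinAbs (y k - x k).valMinAbs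
  omega

private lemma B1C_mB {d n : ℕ} [NeZero n] (r : ℕ) (σ : Conf d n) : |mB r σ| ≤ 1 := by
  unfold mB
  rw [abs_div, Nat.abs_cast]
  apply div_le_one_of_le₀ _ (Nat.cast_nonneg _)
  refine (abs_sum_le_sum_abs _ _).trans ?_
  calc ∑ x ∈ Box r (0 : Site d n), |sg (σ x)| ≤ ∑ x ∈ Box r (0 : Site d n), (1 : ℝ) := by
        refine sum_le_sum fun x _ => ?_
        unfold sg
        split_ifs <;> simp
    _ = _ := by rw [sum_const, nsmul_eq_mul, mul_one]

theorem B1C (hPLB : PLB_stmt) (hGKW : GKW_stmt) (hEXT : EXT_stmt) (hBXP : BXP_stmt) (hMSP : MSP_stmt) (hVF : CU.VF_stmt) (hBC : CU.BC_stmt) (hCBX : CBX_stmt) : B1C_stmt := by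
  intro d b a κ hd hb ha hκ
  obtain ⟨ms1, -, ms3, -⟩ := hMSP d
  set m : ℝ := ms d b with hm
  have hm0 : 0 ≤ m := (ms1 b 0 hb).1
  have hm1 : m ≤ 1 := (ms1 b 0 hb).2.1.trans (ms1 b 0 hb).2.2
  set κ₂ : ℝ := κ ^ 2 * Real.exp (-2 * a) / 4 with hκ₂
  have hκ₂0 : 0 < κ₂ := by positivity
  obtain ⟨L, hL⟩ := ms3 b (min 1 (κ₂ / 6)) hb (lt_min one_pos (by positivity))
  have hML := hL L le_rfl
  have hML0 : 0 ≤ CS.ML d b L := hm0.trans (ms1 b L hb).2.1
  have hML2 : CS.ML d b L ^ 2 ≤ m ^ 2 + κ₂ / 2 := by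
    have e1 : min 1 (κ₂ / 6) ≤ 1 := min_le_left _ _
    have e2 : min 1 (κ₂ / 6) ≤ κ₂ / 6 := min_le_right _ _
    have e3 : 0 < min 1 (κ₂ / 6) := lt_min one_pos (by positivity)
    have e4 : CS.ML d b L ^ 2 ≤ (m + min 1 (κ₂ / 6)) ^ 2 := pow_le_pow_left₀ hML0 hML 2
    nlinarith
  set r₀ : ℕ := ⌈(4 * (L : ℝ) + 3) ^ d / κ₂⌉₊ with hr₀
  refine ⟨r₀, fun r hr => ⟨L + r, fun M hM => ?_⟩⟩
  filter_upwards [eventually_ge_atTop (2 * (M + r))] with n hn
  set B : Finset (Site d (n + 3)) := Box r (0 : Site d (n + 3)) with hB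
  set A : Finset (Site d (n + 3)) := univ \ Box M (0 : Site d (n + 3)) with hA
  set K : Site d (n + 3) → Site d (n + 3) → ℝ := KT b fun _ => 0 with hK
  set w : Conf d (n + 3) → ℝ := fun σ => Real.exp (CWM.HH K (fun _ => 0) σ) with hw
  set Z : ℝ := ∑ σ ∈ pl A, w σ with hZ
  have hZ0 : 0 < Z := by
    rw [hZ]
    refine sum_pos (fun σ _ => Real.exp_pos _) ⟨fun _ => true, ?_⟩
    unfold pl
    exact mem_filter.2 ⟨mem_univ _, fun _ _ => rfl⟩
  have hex : ∀ f : Conf d (n + 3) → ℝ, ∑ σ ∈ pl A, w σ * f σ = exA K (fun _ => 0) A f * Z := by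
    intro f
    show _ = (∑ σ ∈ pl A, w σ * f σ) / Z * Z
    rw [div_mul_cancel₀ _ hZ0.ne']
  have hK0 : ∀ x y, 0 ≤ K x y := by
    intro x y
    rw [hK]
    unfold KT
    have : 0 ≤ ∑ i : Fin d, if y = x + ev i then (1 : ℝ) else 0 :=
      sum_nonneg fun i _ => by split_ifs <;> norm_num
    have := mul_nonneg hb this
    linarith
  have hBcard : B.card = (2 * r + 1) ^ d := (hCBX d (n + 3) r).1 (by omega)
  have hBpos : (0 : ℝ) < B.card := by
    rw [hBcard]
    positivity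
  -- two point function
  have htwo : ∀ x ∈ B, ∀ y ∈ B, exA K (fun _ => 0) A (fun σ => sg (σ x) * sg (σ y)) ≤
      (m ^ 2 + κ₂ / 2) + (if y ∈ Box (2 * L + 1) x then 1 else 0) := by
    intro x hx y hy
    have hms : 0 ≤ m ^ 2 + κ₂ / 2 := by positivity
    split_ifs with hnear
    · have e1 : exA K (fun _ => 0) A (fun σ => sg (σ x) * sg (σ y)) ≤ 1 := by
        show (∑ σ ∈ pl A, w σ * (sg (σ x) * sg (σ y))) / Z ≤ 1
        rw [div_le_one hZ0, hZ]
        refine sum_le_sum fun σ _ => ?_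
        have e2 : sg (σ x) * sg (σ y) ≤ 1 := by
          unfold sg
          split_ifs <;> norm_num
        calc w σ * (sg (σ x) * sg (σ y)) ≤ w σ * 1 := mul_le_mul_of_nonneg_left e2 (Real.exp_pos _).le
          _ = w σ := mul_one _
      linarith
    · have hnn : ¬ Near (2 * L + 1) x y := by
        intro h
        apply hnear
        exact mem_filter.2 ⟨mem_univ _, h⟩
      have hx' : Near r (0 : Site d (n + 3)) x := (mem_filter.1 hx).2
      have hy' : Near r (0 : Site d (n + 3)) y := (mem_filter.1 hy).2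
      have hsub : A ⊆ univ \ (Box L x ∪ Box L y) := by
        rw [hA]
        apply sdiff_subset_sdiff (Subset.refl _)
        intro z hz
        rw [mem_union] at hz
        refine mem_filter.2 ⟨mem_univ _, ?_⟩
        rcases hz with hz | hz
        · exact B1C_near (by omega) hx' (mem_filter.1 hz).2
        · exact B1C_near (by omega) hy' (mem_filter.1 hz).2
      have e1 := (hGKW (Site d (n + 3)) K K (fun _ => 0) (fun _ => 0) hK0 (fun _ => le_rfl) (fun _ _ => le_rfl)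
        (fun _ => le_rfl) A (univ \ (Box L x ∪ Box L y)) hsub x y).2.1
      have e2 := (hEXT d (n + 3) b).2.1 (Box L x ∪ Box L y) (fun σ : Conf d (n + 3) => sg (σ x) * sg (σ y))
      have e3 := (hBXP d (n + 3) L (by omega) b x y).2 hnn
      have e4 := hVF d b L n (by omega)
      have e5 : ExD b (Box L (0 : Site d (n + 3))) (fun σ : Conf d (n + 3) => sg (σ 0)) = CS.ML d b L := e4
      rw [e3, e5] at e2
      have e6 : exA K (fun _ => 0) A (fun σ => sg (σ x) * sg (σ y)) ≤ CS.ML d b L ^ 2 := by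
        rw [e2]
        exact e1
      linarith
  -- first moment
  have h1 : m * ∑ σ ∈ pl A, w σ ≤ ∑ σ ∈ pl A, w σ * mB r σ := by
    have e1 : ∑ σ ∈ pl A, w σ * mB r σ = (∑ x ∈ B, exA K (fun _ => 0) A (fun σ => sg (σ x)) * Z) / B.card := by
      have e2 : ∀ σ : Conf d (n + 3), w σ * mB r σ = (∑ x ∈ B, w σ * sg (σ x)) / B.card := by
        intro σ
        unfold mB
        rw [← mul_sum, mul_div_assoc]
      rw [sum_congr rfl fun σ _ => e2 σ, ← sum_div, sum_comm]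
      congr 1
      refine sum_congr rfl fun x _ => ?_
      exact hex fun σ => sg (σ x)
    rw [e1, le_div_iff₀ hBpos]
    calc m * (∑ σ ∈ pl A, w σ) * (B.card : ℝ) = ∑ x ∈ B, m * Z := by
          rw [sum_const, nsmul_eq_mul]
          ring
      _ ≤ ∑ x ∈ B, exA K (fun _ => 0) A (fun σ => sg (σ x)) * Z := by
          refine sum_le_sum fun x hx => ?_
          apply mul_le_mul_of_nonneg_right _ hZ0.le
          exact hPLB d M r n b hb (by omega) x hx
  -- second moment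
  have h2 : ∑ σ ∈ pl A, w σ * mB r σ ^ 2 ≤ (m ^ 2 + κ₂) * ∑ σ ∈ pl A, w σ := by
    have e1 : ∑ σ ∈ pl A, w σ * mB r σ ^ 2 =
        (∑ x ∈ B, ∑ y ∈ B, exA K (fun _ => 0) A (fun σ => sg (σ x) * sg (σ y)) * Z) / (B.card : ℝ) ^ 2 := by
      have e2 : ∀ σ : Conf d (n + 3), w σ * mB r σ ^ 2 =
          (∑ x ∈ B, ∑ y ∈ B, w σ * (sg (σ x) * sg (σ y))) / (B.card : ℝ) ^ 2 := by
        intro σ
        unfold mB
        rw [div_pow, pow_two (∑ x ∈ Box r (0 : Site d (n + 3)), sg (σ x)), sum_mul_sum, ← mul_div_assoc, mul_sum]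
        congr 1
        refine sum_congr rfl fun x _ => ?_
        rw [mul_sum]
      rw [sum_congr rfl fun σ _ => e2 σ, ← sum_div, sum_comm]
      congr 1
      refine sum_congr rfl fun x _ => ?_
      rw [sum_comm]
      refine sum_congr rfl fun y _ => ?_
      exact hex fun σ => sg (σ x) * sg (σ y)
    rw [e1, div_le_iff₀ (by positivity)]
    have hcnt : ∀ x : Site d (n + 3), ∑ y ∈ B, (if y ∈ Box (2 * L + 1) x then (1 : ℝ) else 0) ≤ (4 * (L : ℝ) + 3) ^ d := by
      intro x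
      rw [← sum_filter, sum_const, nsmul_eq_mul, mul_one]
      have e3 : (B.filter fun y => y ∈ Box (2 * L + 1) x).card ≤ (Box (2 * L + 1) x).card := by
        apply card_le_card
        intro y hy
        exact (mem_filter.1 hy).2
      have e4 := hBC d (n + 3) (2 * L + 1) x
      have e5 : (((B.filter fun y => y ∈ Box (2 * L + 1) x).card : ℕ) : ℝ) ≤ (((2 * (2 * L + 1) + 1) ^ d : ℕ) : ℝ) := by
        exact_mod_cast e3.trans e4
      refine e5.trans (le_of_eq ?_)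
      push_cast
      congr 1
      ring
    have hrB : (4 * (L : ℝ) + 3) ^ d ≤ κ₂ / 2 * B.card := by
      have e3 : (4 * (L : ℝ) + 3) ^ d / κ₂ ≤ r := (Nat.le_ceil _).trans (Nat.cast_le.2 hr)
      rw [div_le_iff₀ hκ₂0] at e3
      have e4 : (2 * (r : ℝ) + 1) ≤ B.card := by
        rw [hBcard]
        push_cast
        calc (2 * (r : ℝ) + 1) = (2 * (r : ℝ) + 1) ^ 1 := (pow_one _).symm
          _ ≤ _ := pow_le_pow_right₀ (by have : (0 : ℝ) ≤ r := Nat.cast_nonneg r; linarith) hd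
      nlinarith
    calc ∑ x ∈ B, ∑ y ∈ B, exA K (fun _ => 0) A (fun σ => sg (σ x) * sg (σ y)) * Z
        ≤ ∑ x ∈ B, ∑ y ∈ B, ((m ^ 2 + κ₂ / 2) + (if y ∈ Box (2 * L + 1) x then 1 else 0)) * Z :=
          sum_le_sum fun x hx => sum_le_sum fun y hy => mul_le_mul_of_nonneg_right (htwo x hx y hy) hZ0.le
      _ = ∑ x ∈ B, ((B.card : ℝ) * (m ^ 2 + κ₂ / 2) + ∑ y ∈ B, (if y ∈ Box (2 * L + 1) x then (1 : ℝ) else 0)) * Z := by
          refine sum_congr rfl fun x _ => ?_
          rw [← sum_mul, sum_add_distrib, sum_const, nsmul_eq_mul]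
      _ ≤ ∑ x ∈ B, ((B.card : ℝ) * (m ^ 2 + κ₂ / 2) + κ₂ / 2 * B.card) * Z := by
          refine sum_le_sum fun x _ => ?_
          apply mul_le_mul_of_nonneg_right _ hZ0.le
          have := (hcnt x).trans hrB
          linarith
      _ = (m ^ 2 + κ₂) * Z * (B.card : ℝ) ^ 2 := by
          rw [sum_const, nsmul_eq_mul]
          ring
  have hfin := B1C_abs (pl A) w (fun σ => mB r σ) a κ m ha hκ hm0 hm1 (fun σ _ => (Real.exp_pos _).le)
    (fun σ _ => B1C_mB r σ) h1 h2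
  show (∑ σ ∈ pl A, w σ * Real.exp (-(a * mB r σ))) / Z ≤
    2 * Real.exp (-a * (2 * m - κ)) * ((∑ σ ∈ pl A, w σ * Real.exp (a * mB r σ)) / Z)
  rw [← mul_div_assoc]
  exact div_le_div_of_nonneg_right hfin hZ0.le

end CO
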